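import Mathlib

/-!
# Project PW: pseudorandom bits for circuits of small pathwidth (definitions and statements)

Everything here is light. Every `XX.Stm : Prop` is one subtask; a complete proof is in its docstring.
-/

namespace Pool.Agent.W945.Pw

open Finset

noncomputable section

/-! ### Averages, characters, Fourier coefficients -/

/-- The average of a function over a finite type. -/
def avg {Ω : Type} [Fintype Ω] (f : Ω → ℝ) : ℝ := (∑ ω, f ω) / (Fintype.card Ω : ℝ)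

/-- `(-1) ^ b`. -/
def sg (b : Bool) : ℝ := if b then -1 else 1

/-- The character `χ_S(x) = ∏_{i ∈ S} (-1) ^ (x i)`. -/
def chi {n : ℕ} (S : Finset (Fin n)) (x : Fin n → Bool) : ℝ := ∏ i ∈ S, sg (x i)

/-- The Fourier coefficient of `f` at `S`. -/
def hat {n : ℕ} (f : (Fin n → Bool) → ℝ) (S : Finset (Fin n)) : ℝ := avg fun x => f x * chi S x

/-- `f` depends only on the coordinates in `P`. -/
def Dep {n : ℕ} (P : Finset (Fin n)) (f : (Fin n → Bool) → ℝ) : Prop :=
  ∀ x y, (∀ v ∈ P, x v = y v) → f x = f y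

/-- The bits `D ω` are `k`-wise independent and unbiased. -/
def Indep {Ω : Type} [Fintype Ω] {n : ℕ} (k : ℕ) (D : Ω → Fin n → Bool) : Prop :=
  ∀ S : Finset (Fin n), S.Nonempty → S.card ≤ k → ∑ ω, chi S (D ω) = 0

/-- `d + t ∧ u`. -/
def mix {n : ℕ} (d t u : Fin n → Bool) : Fin n → Bool := fun i => xor (d i) (t i && u i)

/-- For every cut of the order `ρ` the function `f` is a sum of `w` products of bounded functions
of the inputs before the cut and of the inputs after the cut. -/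
def Narrow {n : ℕ} (w : ℕ) (ρ : Fin n → ℕ) (f : (Fin n → Bool) → ℝ) : Prop :=
  ∀ j : ℕ, ∃ A B : Fin w → (Fin n → Bool) → ℝ,
    (∀ i x, |A i x| ≤ 1) ∧ (∀ i x, |B i x| ≤ 1) ∧
    (∀ i, Dep (univ.filter fun v => ρ v < j) (A i)) ∧
    (∀ i, Dep (univ.filter fun v => j ≤ ρ v) (B i)) ∧
    ∀ x, f x = ∑ i, A i x * B i x

/-- The part of `A` spanned by the characters `χ_S` with `|S| = k`, `v ∈ S` and `ρ u ≤ ρ v` for all
`u ∈ S`. -/
def top {n : ℕ} (k : ℕ) (ρ : Fin n → ℕ) (v : Fin n) (A : (Fin n → Bool) → ℝ)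
    (x : Fin n → Bool) : ℝ :=
  ∑ S ∈ univ.filter (fun S : Finset (Fin n) => S.card = k ∧ v ∈ S ∧ ∀ u ∈ S, ρ u ≤ ρ v),
    hat A S * chi S x

/-- The part of `f` of degree less than `k`. -/
def low {n : ℕ} (k : ℕ) (f : (Fin n → Bool) → ℝ) (x : Fin n → Bool) : ℝ :=
  ∑ S ∈ univ.filter (fun S : Finset (Fin n) => S.card < k), hat f S * chi S x

/-! ### The generator -/

/-- The bits `λ(a_0 + a_1 z_i + ⋯ + a_{k-1} z_i ^ (k-1))`. -/
def bits {F : Type} [Field F] {n : ℕ} (k : ℕ) (lam : F →+ ZMod 2) (pt : Fin n → F)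
    (a : Fin k → F) : Fin n → Bool :=
  fun i => decide (lam (∑ j : Fin k, a j * pt i ^ (j : ℕ)) = 1)

/-- `D₁ + T₁ ∧ (D₂ + T₂ ∧ (⋯ (D_ℓ + T_ℓ ∧ u)))`. -/
def rounds {Ω₁ Ω₂ : Type} {n : ℕ} (D : Ω₁ → Fin n → Bool) (T : Ω₂ → Fin n → Bool) :
    (ℓ : ℕ) → (Fin ℓ → Ω₁ × Ω₂) → (Fin n → Bool) → Fin n → Bool
  | 0, _, u => u
  | ℓ + 1, s, u => mix (D (s 0).1) (T (s 0).2) (rounds D T ℓ (fun i => s i.succ) u)

/-- Seeds: `(3 ℓ + 1) k` elements of the field. -/
abbrev Seed (F : Type) (k ℓ : ℕ) : Type := (Fin ℓ → (Fin (2 * k) → F) × (Fin k → F)) × (Fin k → F)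

/-- The generator. -/
def G {F : Type} [Field F] {n : ℕ} (k ℓ : ℕ) (lam : F →+ ZMod 2) (pt : Fin n → F)
    (s : Seed F k ℓ) : Fin n → Bool :=
  rounds (bits (2 * k) lam pt) (bits k lam pt) ℓ s.1 (bits k lam pt s.2)

/-! ### Circuits -/

/-- The gates of a circuit with inputs `x 0, …, x (n - 1)` and vertices `0, …, s - 1`. -/
inductive Gate (n s : ℕ) where
  | input (i : Fin n)
  | const (c : Bool)
  | op (g : Bool → Bool → Bool) (a b : Fin s)

/-- Boolean circuits on `n` inputs with `s` vertices, in topological order: every vertex is an input,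
a constant, or any function of two earlier vertices (which may be equal, so there are negations).
There is at most one vertex for each input. The fan-out is unlimited. -/
structure Circuit (n s : ℕ) where
  gate : Fin s → Gate n s
  acyclic : ∀ v g a b, gate v = Gate.op g a b → a < v ∧ b < v
  once : ∀ v w i, gate v = Gate.input i → gate w = Gate.input i → v = w

/-- The value prescribed by a gate, if the vertices have the values `a`. -/
def Gate.rule {n s : ℕ} (g : Gate n s) (x : Fin n → Bool) (a : Fin s → Bool) : Bool :=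
  match g with
  | .input i => x i
  | .const c => c
  | .op g u w => g (a u) (a w)

/-- The value of the vertex `v` of the circuit on the input `x`. -/
def Circuit.val {n s : ℕ} (C : Circuit n s) (x : Fin n → Bool) (v : Fin s) : Bool :=
  match h : C.gate v with
  | .input i => x i
  | .const c => c
  | .op g a b => g (C.val x a) (C.val x b)
termination_by v.1
decreasing_by
  · exact (C.acyclic v g a b h).1
  · exact (C.acyclic v g a b h).2

/-- `u` is an argument of the gate `v`. -/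
def Circuit.Wire {n s : ℕ} (C : Circuit n s) (u v : Fin s) : Prop :=
  ∃ g a b, C.gate v = Gate.op g a b ∧ (u = a ∨ u = b)

/-! ### Path decompositions, separators, layouts -/

/-- The graph with the edges `R`, restricted to `W`, has a path decomposition with bags of at most
`β` vertices (its pathwidth is at most `β - 1`). -/
def HasPathDec {V : Type} (R : V → V → Prop) (W : Finset V) (β : ℝ) : Prop :=
  ∃ (r : ℕ) (bag : ℕ → Finset V),
    (∀ t, bag t ⊆ W) ∧ (∀ v ∈ W, ∃ t < r, v ∈ bag t) ∧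
    (∀ u ∈ W, ∀ v ∈ W, R u v → ∃ t < r, u ∈ bag t ∧ v ∈ bag t) ∧
    (∀ v t₁ t₂ t₃, t₁ ≤ t₂ → t₂ ≤ t₃ → v ∈ bag t₁ → v ∈ bag t₃ → v ∈ bag t₂) ∧
    ∀ t, ((bag t).card : ℝ) ≤ β

/-- Every set `W` of vertices has a set `S ⊆ W` of at most `c |W| ^ γ` vertices such that the rest
of `W` splits into two parts with at most `θ |W|` vertices and no edges between them. -/
def Separable {V : Type} (R : V → V → Prop) (θ c γ : ℝ) : Prop :=
  ∀ W : Finset V, W.Nonempty → ∃ A S B : Finset V,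
    (∀ v, v ∈ W ↔ v ∈ A ∨ v ∈ S ∨ v ∈ B) ∧
    (∀ u ∈ A, ∀ v ∈ B, u ≠ v ∧ ¬ R u v ∧ ¬ R v u) ∧
    (A.card : ℝ) ≤ θ * W.card ∧ (B.card : ℝ) ≤ θ * W.card ∧ (S.card : ℝ) ≤ c * (W.card : ℝ) ^ γ

/-- The vertices are distinct points of the lattice `ℤ ^ d`, and all edges join points at distance
at most `r` (in the maximum norm). -/
def Layout {V : Type} (R : V → V → Prop) (d r : ℕ) : Prop :=
  ∃ pos : V → Fin d → ℤ, Function.Injective pos ∧ ∀ u v, R u v → ∀ i, |pos u i - pos v i| ≤ r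

/-! ### Subtasks -/

/-- FOUR: Fourier inversion, Parseval, support.

Proof. `∑_S chi S x * chi S y = ∑_S ∏_{i∈S} (sg (x i) * sg (y i)) = ∏_i (1 + sg (x i) sg (y i))`
(`Finset.prod_one_add` or `Finset.prod_add`), which is `2^n` if `x = y` and `0` otherwise (a factor
is `1 - 1`). Hence (1): `∑_S hat f S chi S x = 2^-n ∑_y f y ∑_S chi S y chi S x = f x`.
(2): `∑_S (hat f S)^2 = ∑_S hat f S * 2^-n ∑_x f x chi S x = 2^-n ∑_x f x * f x` by (1).
(3): if `v ∈ S \ P`, the involution `x ↦ Function.update x v (!x v)` keeps `f` and changes the sign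
of `chi S` (`Finset.sum_involution` or `Equiv.sum_comp`). -/
def FOUR.Stm : Prop := ∀ (n : ℕ) (f : (Fin n → Bool) → ℝ),
  (∀ x, f x = ∑ S : Finset (Fin n), hat f S * chi S x) ∧
  (∑ S : Finset (Fin n), hat f S ^ 2 = avg fun x => f x ^ 2) ∧
  ∀ P : Finset (Fin n), Dep P f → ∀ S : Finset (Fin n), ¬ S ⊆ P → hat f S = 0

/-- PROD: coefficients of a product of functions of disjoint sets of variables.

Proof. Put `h x = A x * chi β x` (depends on `P` only) and `g x = B x * chi γ x` (depends on `Q`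
only), `chi (β ∪ γ) = chi β * chi γ` as `β`, `γ` are disjoint. It suffices to show
`avg (h * g) = avg h * avg g` for `Dep P h`, `Dep Q g`, `P`, `Q` disjoint:
`∑_x ∑_y h x g y = ∑_x ∑_y h (z) g (z)`-argument: the map `(x, y) ↦ (x on P and y outside P,
y on P and x outside P)` is an involution `E` of pairs, with `h x * g y = h (E.1) * g (E.1)`
(`E(x,y).1` agrees with `x` on `P` and with `y` on `Q ⊆ Pᶜ`). So
`(∑ h)(∑ g) = ∑_{x,y} h (E(x,y).1) g (E(x,y).1) = ∑_{x,y} h x g x = 2^n ∑_x h x g x`. -/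
def PROD.Stm : Prop := ∀ (n : ℕ) (P Q : Finset (Fin n)) (A B : (Fin n → Bool) → ℝ),
  Disjoint P Q → Dep P A → Dep Q B → ∀ β γ : Finset (Fin n), β ⊆ P → γ ⊆ Q →
    hat (fun x => A x * B x) (β ∪ γ) = hat A β * hat B γ

/-- SPLIT: the decomposition of Forbes and Kelley for narrow functions.

Proof. `f = ∑_S hat f S chi S` (FOUR). Let `v ∈ Fin n` and take `A v, B v` from `Narrow` with the
cut `j = ρ v + 1`, so `A v i` depends only on `P_v = {u | ρ u ≤ ρ v}` and `B v i` only on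
`Q_v = {u | ρ v < ρ u}`. A set `S` with `|S| ≥ k ≥ 1` has a unique `k`-th element `v` in the order
`ρ`: `v ∈ S` and `|{u ∈ S | ρ u ≤ ρ v}| = k` (`ρ` is injective). So
`f x = low k f x + ∑_v ∑_{S : v ∈ S, |S ∩ P_v| = k} hat f S chi S x`. For fixed `v` the sets `S` are
`β ∪ γ` with `β = S ∩ P_v`, `γ = S ∩ Q_v`: `β` runs over the sets in the definition of `top` and `γ`
over all subsets of `Q_v`. By PROD and linearity
`hat f (β ∪ γ) = ∑_i hat (A v i) β * hat (B v i) γ`. Hence the inner sum is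
`∑_i (∑_β hat (A v i) β chi β x) (∑_{γ ⊆ Q_v} hat (B v i) γ chi γ x)
  = ∑_i top k ρ v (A v i) x * B v i x` (FOUR (1), (3) for `B v i`). -/
def SPLIT.Stm : Prop := FOUR.Stm → PROD.Stm →
  ∀ (n w k : ℕ) (ρ : Fin n → ℕ) (f : (Fin n → Bool) → ℝ),
  1 ≤ k → Function.Injective ρ → Narrow w ρ f →
  ∃ A B : Fin n → Fin w → (Fin n → Bool) → ℝ,
    (∀ v i x, |A v i x| ≤ 1) ∧ (∀ v i x, |B v i x| ≤ 1) ∧
    (∀ v i, Dep (univ.filter fun u => ρ u ≤ ρ v) (A v i)) ∧
    (∀ v i, Dep (univ.filter fun u => ρ v < ρ u) (B v i)) ∧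
    ∀ x, f x = low k f x + ∑ v, ∑ i, top k ρ v (A v i) x * B v i x

/-- TERM: one product is small on `D + T ∧ U`, and has mean `0`.

Write `H = top k ρ v A`, `a_S = hat A S`, the sums are over the sets `S` of the definition of `top`
(all have `k ≥ 1` elements and lie in `P = {u | ρ u ≤ ρ v}`), `Q = {u | ρ v < ρ u}`.

Second part: `H` depends only on `P`, `B` only on `Q`, so `avg (H * B) = avg H * avg B` (PROD with
`β = γ = ∅`, `hat f ∅ = avg f`), and `avg H = ∑ a_S avg (chi S) = 0`, as `S ≠ ∅`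
(`avg (chi S) = 0` for `S ≠ ∅`: involution, or FOUR (3) for `f = 1`, `P = ∅`).

First part: for fixed `d, t` the functions `u ↦ H (mix d t u)`, `u ↦ B (mix d t u)` depend only on
`P`, `Q`; so the average over `u` of the product is the product of the averages, and the second one
is at most `1` in absolute value. Moreover `avg_u H (mix d t u) = ∑ a_S chi S d * avg_u chi S (t ∧ u)
= ∑ a_S chi S d * [∀ i ∈ S, t i = false] =: h (d, t)`. So the absolute value is at most
`avg_{d,t} |h| ≤ √(avg_{d,t} h²)` (Cauchy–Schwarz, `inner_mul_le_norm_mul_norm` or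
`sq_sum_le_card_mul_sum_sq`). Now `avg_d h² = ∑_{S,S'} a_S a_{S'} [..][..] avg_d chi (S ∆ S') (D d)`
and `|S ∆ S'| ≤ 2 k`, so only `S = S'` remains (`Indep (2 k) D`). Finally
`avg_t [∀ i ∈ S, T t i = false] = 2 ^ (-k)`: the indicator is
`∏_{i ∈ S} (1 + sg (t i)) / 2 = 2 ^ (-k) ∑_{S' ⊆ S} chi S' t` and `Indep k T`. So
`avg h² = 2 ^ (-k) ∑ a_S² ≤ 2 ^ (-k) avg A² ≤ 2 ^ (-k)` (FOUR (2)). -/
def TERM.Stm : Prop := FOUR.Stm → PROD.Stm →
  ∀ (n k : ℕ) (ρ : Fin n → ℕ) (v : Fin n) (A B : (Fin n → Bool) → ℝ) (Ω₁ Ω₂ : Type)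
    [Fintype Ω₁] [Fintype Ω₂] [Nonempty Ω₁] [Nonempty Ω₂]
    (D : Ω₁ → Fin n → Bool) (T : Ω₂ → Fin n → Bool),
  1 ≤ k → (∀ x, |A x| ≤ 1) → (∀ x, |B x| ≤ 1) → Dep (univ.filter fun u => ρ u ≤ ρ v) A →
  Dep (univ.filter fun u => ρ v < ρ u) B → Indep (2 * k) D → Indep k T →
    |avg (fun p : Ω₁ × Ω₂ × (Fin n → Bool) =>
      top k ρ v A (mix (D p.1) (T p.2.1) p.2.2) * B (mix (D p.1) (T p.2.1) p.2.2))| ≤
        1 / Real.sqrt (2 ^ k) ∧
    avg (fun u => top k ρ v A u * B u) = 0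

/-- LOW: the low degree part is fooled exactly.

Proof. `chi S (mix d t u) = chi S d * chi S (fun i => t i && u i)`
(`sg (xor a b) = sg a * sg b`). For `S = ∅` the character is `1` and `hat f ∅ = avg f`; for
`0 < |S| < k` the sum over `Ω₁` vanishes (`Indep (2 k) D`). The second part: `∑_u chi S u = 0` for
`S ≠ ∅` (involution). -/
def LOW.Stm : Prop :=
  ∀ (n k : ℕ) (f : (Fin n → Bool) → ℝ) (Ω₁ Ω₂ : Type)
    [Fintype Ω₁] [Fintype Ω₂] [Nonempty Ω₁] [Nonempty Ω₂]
    (D : Ω₁ → Fin n → Bool) (T : Ω₂ → Fin n → Bool),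
  1 ≤ k → Indep (2 * k) D →
    avg (fun p : Ω₁ × Ω₂ × (Fin n → Bool) => low k f (mix (D p.1) (T p.2.1) p.2.2)) = avg f ∧
    avg (fun u => low k f u) = avg f

/-- STEP (assembly of SPLIT, TERM, LOW): `D + T ∧ U` fools narrow functions.

Proof. Insert SPLIT in both averages; `avg` is linear; the low parts are equal (LOW); every product
contributes at most `1 / √(2^k)` to the first and `0` to the second average (TERM); there are `n w`
products. -/
def STEP.Stm : Prop := FOUR.Stm → PROD.Stm → SPLIT.Stm → TERM.Stm → LOW.Stm →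
  ∀ (n w k : ℕ) (ρ : Fin n → ℕ) (f : (Fin n → Bool) → ℝ) (Ω₁ Ω₂ : Type)
    [Fintype Ω₁] [Fintype Ω₂] [Nonempty Ω₁] [Nonempty Ω₂]
    (D : Ω₁ → Fin n → Bool) (T : Ω₂ → Fin n → Bool),
  1 ≤ k → Function.Injective ρ → Narrow w ρ f → Indep (2 * k) D → Indep k T →
    |avg (fun p : Ω₁ × Ω₂ × (Fin n → Bool) => f (mix (D p.1) (T p.2.1) p.2.2)) - avg f| ≤
      n * w / Real.sqrt (2 ^ k)

/-- HYB: `ℓ` rounds with truly random bits at the end.

Proof. Induction on `ℓ`, for all `f` with `Narrow w ρ f` (the hypothesis is the conclusion of STEP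
for all such `f`). `ℓ = 0`: both averages are equal. `ℓ + 1`: for fixed `(d, t)` the function
`g u = f (mix (D d) (T t) u)` is narrow (the functions `A i (mix d t ·)`, `B i (mix d t ·)` work:
`Dep P A → Dep P (fun u => A (mix d t u))`), so the average of `g` over
`rounds D T ℓ s u` differs from `avg g` by at most `ℓ δ`; average over `(d, t)`
(`Fin.consEquiv`/`Fin.insertNthEquiv` to split `Fin (ℓ + 1) → Ω₁ × Ω₂`) and use the hypothesis. -/
def HYB.Stm : Prop := ∀ (n w : ℕ) (ρ : Fin n → ℕ) (δ : ℝ) (Ω₁ Ω₂ : Type)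
    [Fintype Ω₁] [Fintype Ω₂] [Nonempty Ω₁] [Nonempty Ω₂]
    (D : Ω₁ → Fin n → Bool) (T : Ω₂ → Fin n → Bool),
  (∀ f, Narrow w ρ f →
    |avg (fun p : Ω₁ × Ω₂ × (Fin n → Bool) => f (mix (D p.1) (T p.2.1) p.2.2)) - avg f| ≤ δ) →
  ∀ (ℓ : ℕ) (f : (Fin n → Bool) → ℝ), Narrow w ρ f →
    |avg (fun p : (Fin ℓ → Ω₁ × Ω₂) × (Fin n → Bool) => f (rounds D T ℓ p.1 p.2)) - avg f| ≤ ℓ * δ

/-- LIVE: the last random bits may be replaced by `k`-wise independent ones.

Proof. For `s : Fin ℓ → Ω₁ × Ω₂` let `V s = {i | ∀ j, T (s j).2 i = true}`. By induction on `ℓ`,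
`rounds D T ℓ s u i` depends on `u` only through `u i`, and not at all if `i ∉ V s`; so
`g_s u = f (rounds D T ℓ s u)` satisfies `Dep (V s) g_s`. If `|V s| ≤ k`, then
`avg_r g_s (R r) = ∑_S hat g_s S avg_r chi S (R r) = hat g_s ∅ = avg g_s` (FOUR: only `S ⊆ V s`
count, `|S| ≤ k`, `Indep k R`). Otherwise the two averages differ by at most `1` (both in `[0,1]`),
and there is a `k`-subset `S` of `V s`. The number of `s` with `S ⊆ V s` is
`∏_j |Ω₁| |{ω | ∀ i ∈ S, T ω i = true}| = (|Ω₁| |Ω₂| / 2^k)^ℓ` (the indicator of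
`∀ i ∈ S, T ω i = true` is `∏ (1 - sg (T ω i)) / 2 = 2^-k ∑_{S' ⊆ S} (-1)^|S'| chi S'`, `Indep k T`).
The number of `k`-subsets is `choose n k ≤ n ^ k`. So the error is at most
`n ^ k * (1 / 2 ^ k) ^ ℓ`. -/
def LIVE.Stm : Prop := FOUR.Stm → ∀ (n k ℓ : ℕ) (f : (Fin n → Bool) → ℝ) (Ω₁ Ω₂ Ω₃ : Type)
    [Fintype Ω₁] [Fintype Ω₂] [Fintype Ω₃] [Nonempty Ω₁] [Nonempty Ω₂] [Nonempty Ω₃]
    (D : Ω₁ → Fin n → Bool) (T : Ω₂ → Fin n → Bool) (R : Ω₃ → Fin n → Bool),
  (∀ x, 0 ≤ f x ∧ f x ≤ 1) → Indep k T → Indep k R →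
    |avg (fun p : (Fin ℓ → Ω₁ × Ω₂) × Ω₃ => f (rounds D T ℓ p.1 (R p.2))) -
      avg (fun p : (Fin ℓ → Ω₁ × Ω₂) × (Fin n → Bool) => f (rounds D T ℓ p.1 p.2))| ≤
      (n : ℝ) ^ k / 2 ^ (k * ℓ)

/-- KWISE: polynomials of degree less than `k` give `k`-wise independent bits.

Proof. `sg (decide (z = 1)) = (-1)^z` is multiplicative on `ZMod 2`. So
`chi S (bits k lam pt a) = ψ (lam (∑_{i∈S} ∑_j a j * pt i ^ j)) = ψ (lam (∑_j a j * c j))` with
`ψ : ZMod 2 → ℝ`, `ψ 0 = 1`, `ψ 1 = -1` and `c j = ∑_{i ∈ S} pt i ^ j`. Some `c j ≠ 0` with `j < k`: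
otherwise `∑_{i∈S} q (pt i) = 0` for all polynomials `q` of degree less than `k`; take the Lagrange
polynomial `q = ∏_{i ∈ S, i ≠ i₀} (X - pt i)` (degree `|S| - 1 < k`), which gives
`q (pt i₀) = 0`, a contradiction (`pt` injective). Let `lam z = 1` (`lam ≠ 0`, so some value is not
`0`, hence `1`). Adding `z / c j` to `a j` is a bijection of `Fin k → F` which changes the sign of
the summand (`Equiv.sum_comp (Equiv.addRight _)`), so the sum is `0`. (No assumption on the
characteristic is needed: `lam` is additive.) -/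
def KWISE.Stm : Prop := ∀ (F : Type) [Field F] [Fintype F] (n k : ℕ) (lam : F →+ ZMod 2)
    (pt : Fin n → F), lam ≠ 0 → Function.Injective pt → Indep k (bits k lam pt)

/-- BAG: enlarge the bags such that every gate and its arguments are in one bag.

Proof. `bag' t = bag t ∪ {u | ∃ v ∈ bag t, C.Wire u v}` has at most `3 |bag t|` elements (every
gate has at most two arguments). For a gate `v` take `t` with `v ∈ bag t`. Intervals: let
`t₁ ≤ t₂ ≤ t₃`, `u ∈ bag' t₁`, `u ∈ bag' t₃`. If `u ∈ bag t₁` and `u ∈ bag t₃`: clear. If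
`u ∈ bag t₁` and `u` is an argument of `v ∈ bag t₃`: some bag `e` contains `u` and `v`; if `t₂` is
between `t₁` and `e` (in either order), then `u ∈ bag t₂`, otherwise it is between `e` and `t₃`, then
`v ∈ bag t₂` and `u ∈ bag' t₂`. The other cases are similar (`v ∈ bag t₁`, `v' ∈ bag t₃`, common bags
`e` of `u, v` and `e'` of `u, v'`: `t₂` is between `t₁, e` or between `e, e'` or between
`e', t₃`). -/
def BAG.Stm : Prop := ∀ (n s b : ℕ) (C : Circuit n s), HasPathDec C.Wire univ b →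
  ∃ (r : ℕ) (bag : ℕ → Finset (Fin s)),
    (∀ v, ∃ t < r, v ∈ bag t ∧ ∀ u, C.Wire u v → u ∈ bag t) ∧
    (∀ v t₁ t₂ t₃, t₁ ≤ t₂ → t₂ ≤ t₃ → v ∈ bag t₁ → v ∈ bag t₃ → v ∈ bag t₂) ∧
    ∀ t, (bag t).card ≤ 3 * b

/-- CUT: circuits with such bags are narrow.

Proof. First, `C.val x` is the only `a : Fin s → Bool` with `a v = (C.gate v).rule x a` for all `v`
(strong induction on `v`). Choose `τ v < r` with `v` and its arguments in `bag (τ v)`, and put
`key v = τ v * s + v` (injective, `< r * s`, `key v / s = τ v`). Put `ρ i = key v` if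
`C.gate v = input i` (at most one such `v`), and `ρ i = r * s + i` if there is no such `v`. Let `j` be
a cut, `t = j / s`, `K = bag t` (`s > 0` because of the vertex `o`). Call a gate `v` left if
`key v < j`, right otherwise; then `τ v ≤ t` for left and `τ v ≥ t` for right gates. The scope of `v`
is `v` and its arguments. If `u` is in the scope of a left gate `v` and of a right gate `v'`, then
`u ∈ bag (τ v)`, `u ∈ bag (τ v')`, `τ v ≤ t ≤ τ v'`, so `u ∈ K`. For `σ : Fin s → Bool` vanishing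
outside `K` (or `σ ⊆ K`; at most `2 ^ q` of them) let `A_σ x = 1` if there is an assignment `a` with
`a = σ` on `K` and `a v = rule x a` for all left gates `v`, and `a o = true` if `o` is left; else
`A_σ x = 0`. `B_σ` is the same for the right gates. `A_σ` depends only on the inputs with `ρ i < j`
(the rule of a left gate `v` uses `x i` only if `C.gate v = input i`, and then `ρ i = key v < j`),
`B_σ` only on those with `ρ i ≥ j`. Claim: `∑_σ A_σ x B_σ x = [C.val x o = true]`. If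
`C.val x o = true`, then `σ = C.val x` on `K` gives a nonzero term. Conversely, let `a₁, a₂` be
assignments for `A_σ x = B_σ x = 1`; let `a u = a₁ u` if `u` is in the scope of a left gate and
`a u = a₂ u` otherwise. Then `a = a₁` on the scopes of left gates and `a = a₂` on the scopes of right
gates (common vertices are in `K`, where `a₁ = σ = a₂`), so `a v = rule x a` for all `v`, so
`a = C.val x`, `C.val x o = true`, and `σ = C.val x` on `K` (every vertex is in the scope of its own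
gate). So there is exactly one nonzero term, which is `1`, if `C.val x o = true`, and none otherwise.
Finally index the `σ` by `Fin (2 ^ q)` (an injection of the finite type of the `σ` into
`Fin (2 ^ q)`, zero functions for the other indices). -/
def CUT.Stm : Prop := ∀ (n s q r : ℕ) (C : Circuit n s) (o : Fin s) (bag : ℕ → Finset (Fin s)),
  (∀ v, ∃ t < r, v ∈ bag t ∧ ∀ u, C.Wire u v → u ∈ bag t) →
  (∀ v t₁ t₂ t₃, t₁ ≤ t₂ → t₂ ≤ t₃ → v ∈ bag t₁ → v ∈ bag t₃ → v ∈ bag t₂) →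
  (∀ t, (bag t).card ≤ q) →
  ∃ ρ : Fin n → ℕ, Function.Injective ρ ∧
    Narrow (2 ^ q) ρ (fun x => if C.val x o = true then (1 : ℝ) else 0)

/-- SEP: small separators give small pathwidth.

Proof. Strong induction on `|W|`. `W = ∅`: `r = 0`, empty bags (`0 ≤ β` as `β = c |W|^γ/(1-θ^γ)`).
`W ≠ ∅`: take `A, S, B`. By the induction hypothesis (`|A| ≤ θ |W| < |W|`) `A`, `B` have path
decompositions with `r₁`, `r₂` bags of size at most `K |A| ^ γ`, `K |B| ^ γ ≤ K (θ |W|) ^ γ`,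
`K = c / (1 - θ ^ γ)`. Use the bags `bag₁ t ∪ S` for `t < r₁`, then `bag₂ (t - r₁) ∪ S` for
`r₁ ≤ t < r₁ + r₂`, then `S` for `t = r₁ + r₂` and for all larger `t` (so `r = r₁ + r₂ + 1`; for the
interval property it is convenient that `S` is in all bags; restrict `bag₁`, `bag₂` to `t < r₁`,
`t < r₂` — the bags with larger indices are replaced). Size: `c |W|^γ + K θ^γ |W|^γ = K |W|^γ`.
`A`, `B` may meet `S` (intervals are unions then: a vertex of `S` is in every bag, so nothing has to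
be checked for it); `A` and `B` are disjoint by the hypothesis `u ≠ v`. Edges inside `W`: both ends
in `A`, both in `B`, or one end in `S`. -/
def SEP.Stm : Prop := ∀ (V : Type) [Fintype V] [DecidableEq V] (R : V → V → Prop) (θ c γ : ℝ),
  0 ≤ θ → θ < 1 → 0 ≤ c → 0 < γ → Separable R θ c γ →
    ∀ W : Finset V, HasPathDec R W (c * (W.card : ℝ) ^ γ / (1 - θ ^ γ))

/-- GRID: graphs with a layout in `ℤ ^ d` have separators of size `2 r N ^ (1 - 1 / d)`.

Proof. `N = |W| ≥ 1`, `q = 1 / (4 d)`, `θ = 1 - q`. For a coordinate `i` and `h : ℤ` put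
`A = {v ∈ W | pos v i < h}`, `S = {v ∈ W | h ≤ pos v i < h + r}`, `B = {v ∈ W | h + r ≤ pos v i}`;
there are no edges between `A` and `B` (the coordinates differ by more than `r`). Suppose that for
all `i, h` with `|A| ≤ θ N` and `|B| ≤ θ N` we have `|S| > 2 r N ^ (1 - 1/d) =: K`. For each `i` let
`a_i` be the largest integer `h` with `|{pos v i < h}| ≤ q N` and `b_i` the smallest integer `h` with
`|{h ≤ pos v i}| ≤ q N` (they exist: `W` is finite and nonempty, `q N < N`). For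
`a_i ≤ h < b_i` (even `a_i + 1 - r ≤ h`) we have `|{pos v i < h + r}| ≥ |{pos v i < a_i + 1}| > q N`,
so `|B| < θ N`, and `|{h ≤ pos v i}| > q N`, so `|A| < θ N`; so `|S| > K`. The slabs
`h = a_i + m r < b_i`, `m = 0, 1, …` are disjoint and cover `[a_i, b_i)`, so if
`M` is their number, `M K ≤ N` and `b_i - a_i ≤ r M`, hence `(b_i - a_i) K ≤ r N` (also true if
`b_i ≤ a_i`). The set of `v ∈ W` with `a_i ≤ pos v i < b_i` for all `i` has at least
`N - 2 d q N = N / 2` elements, and at most `∏ (b_i - a_i)⁺ ≤ (r N / K) ^ d` elements (`pos` is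
injective; `Int.card_Ico`, `Fintype.card_piFinset`). But
`(r N / K) ^ d = (N ^ (1/d) / 2) ^ d = N / 2 ^ d ≤ N / 2` with equality only for `d = 1`; to get a
contradiction note that the slabs satisfy `M K < N` strictly if `M ≥ 1` (`|S| > K` strictly), and if
some `M = 0` the box is empty, whereas `N / 2 > 0`. (`d ≥ 1`, `r ≥ 1`.) -/
def GRID.Stm : Prop := ∀ (V : Type) [Fintype V] [DecidableEq V] (R : V → V → Prop) (d r : ℕ),
  1 ≤ d → 1 ≤ r → Layout R d r →
    Separable R (1 - 1 / (4 * d)) (2 * r) (1 - 1 / (d : ℝ))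

/-- NUM: the error and the number of seeds.

Proof. (1) `√(2^k) = 2^(3b + 2m + e + 2)`; `n ≤ 2^m`, `m + 1 ≤ 2^m`: the first term is at most
`(m+1) 2^m 2^(3b) / 2^(3b+2m+e+2) ≤ 2^-(e+2)`, the second at most
`(2^m)^k / 2^(k(m+1)) = 2^-k ≤ 2^-(e+2)`. (2) `Fintype.card_prod`, `Fintype.card_fun`/`Fintype.card_pi`. -/
def NUM.Stm : Prop := ∀ (n m b e : ℕ), n ≤ 2 ^ m →
  ((m + 1 : ℕ) : ℝ) * ((n : ℝ) * ((2 ^ (3 * b) : ℕ) : ℝ) / Real.sqrt (2 ^ (6 * b + 4 * m + 2 * e + 4))) +
      (n : ℝ) ^ (6 * b + 4 * m + 2 * e + 4) / 2 ^ ((6 * b + 4 * m + 2 * e + 4) * (m + 1)) ≤ 1 / 2 ^ e ∧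
  ∀ (F : Type) [Field F] [Fintype F], Fintype.card F = 2 ^ m →
    Fintype.card (Seed F (6 * b + 4 * m + 2 * e + 4) (m + 1)) =
      2 ^ (m * (3 * m + 4) * (6 * b + 4 * m + 2 * e + 4))

/-- FIELD: the parameters of the generator exist.

Proof. `GaloisField 2 m` (`GaloisField.card`; give it a `Fintype` instance by `Fintype.ofFinite`),
a nonzero additive map to `ZMod 2`: a nonzero linear functional of the `ZMod 2`-vector space (e.g.
`Module.Free`/`Module.forall_dual_apply_eq_zero_iff`, or `Algebra.trace`), and an injection of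
`Fin n` into a type with `2 ^ m ≥ n` elements. Also the bound for `1 - θ ^ γ`:
`(1 - 1/(4d)) ^ (1 - 1/d) ≤ 1 - (1 - 1/d) / (4 d)` by Bernoulli
(`Real.rpow_one_add_le_one_add_mul_self`), so
`2 r N^γ / (1 - θ^γ) ≤ 2 r N^γ 4 d² / (d - 1)`. -/
def FIELD.Stm : Prop :=
  (∀ (n m : ℕ), 1 ≤ m → n ≤ 2 ^ m → ∃ (F : Type) (_ : Field F) (_ : Fintype F)
    (lam : F →+ ZMod 2) (pt : Fin n → F),
    Fintype.card F = 2 ^ m ∧ lam ≠ 0 ∧ Function.Injective pt) ∧
  ∀ (d r N : ℕ), 2 ≤ d →
    2 * (r : ℝ) * (N : ℝ) ^ (1 - 1 / (d : ℝ)) / (1 - (1 - 1 / (4 * (d : ℝ))) ^ (1 - 1 / (d : ℝ))) ≤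
      8 * (d : ℝ) ^ 2 / (d - 1) * r * (N : ℝ) ^ (1 - 1 / (d : ℝ))

end

end Pool.Agent.W945.Pw
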