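import Pool.Agent.W778.Pw.SEP
import Pool.Agent.W397.Pw.GRID

/-!
# Project PW, round 2: more classes of circuits of small pathwidth

Every `XX.Stm : Prop` is one subtask; a complete proof is in its docstring. Useful landed lemmas:
`Pool.Agent.W778.Pw.SEP.glue` (glueing of path decompositions), `Pool.Agent.W778.Pw.SEP.main`
(the pattern of the induction), `Pool.Agent.W397.Pw.GRID.exists_low`, `exists_high` (quantiles).
-/

namespace Pool.Agent.W945.Pw

open Finset

noncomputable section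

/-- The distance of two vertices of a layout in the maximum norm. -/
def len {V : Type} {d : ℕ} (pos : V → Fin d → ℤ) (u v : V) : ℕ :=
  univ.sup fun i => (pos u i - pos v i).natAbs

/-- The vertices are distinct points of the lattice `ℤ ^ d`, and the total length of all edges (in
the maximum norm) is at most `L`. -/
def TotalLength {V : Type} (R : V → V → Prop) (d : ℕ) (L : ℝ) : Prop :=
  ∃ (pos : V → Fin d → ℤ) (E : Finset (V × V)), Function.Injective pos ∧
    (∀ u v, R u v → (u, v) ∈ E) ∧ ∑ p ∈ E, (len pos p.1 p.2 : ℝ) ≤ L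

/-- The vertex `v` is used for the computation of the vertex `o`. -/
def Circuit.Used {n s : ℕ} (C : Circuit n s) (o v : Fin s) : Prop := Relation.ReflTransGen C.Wire v o

open Classical in
/-- The size of a circuit: the number of gates with two different arguments (gates with one argument,
such as negations, are not counted). -/
def Circuit.size {n s : ℕ} (C : Circuit n s) : ℕ :=
  (univ.filter fun v => ∃ g a b, C.gate v = Gate.op g a b ∧ a ≠ b).card

open Classical in
/-- The number of inputs that are used for the computation of the vertex `o`. -/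
def Circuit.reads {n s : ℕ} (C : Circuit n s) (o : Fin s) : ℕ :=
  (univ.filter fun i => ∃ v, C.gate v = Gate.input i ∧ C.Used o v).card

/-- SEPLOG: separators of constant size give pathwidth `O(log)`.

Proof. Strong induction on `|W|` as in `Pool.Agent.W778.Pw.SEP.main`, with
`Pool.Agent.W778.Pw.SEP.glue`. `W = ∅`: empty bags (`Real.log 0 = 0`). `W ≠ ∅`: `A, S, B` with
`|S| ≤ c * |W| ^ 0 = c`. Any set `X` (`A` or `B`) with `|X| ≤ θ |W|`, `X ≠ ∅`, has
`log |X| ≤ log |W| - log (1/θ)`, so `c (1 + log |X| / log (1/θ)) + c ≤ c (1 + log |W| / log (1/θ))`.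
For `X = ∅` use the empty bags, `HasPathDec R ∅ 0`, and `0 + c ≤ c (1 + log |W| / log (1/θ))`. -/
def SEPLOG.Stm : Prop := ∀ (V : Type) [Fintype V] [DecidableEq V] (R : V → V → Prop) (θ c : ℝ),
  0 < θ → θ < 1 → 0 ≤ c → Separable R θ c 0 →
    ∀ W : Finset V, HasPathDec R W (c * (1 + Real.log W.card / Real.log (1 / θ)))

/-- SEPNEG: separators whose size decreases with `|W|`, for large sets `W` only.

Proof. Put `M = c / (θ^(-α) - 1) ≥ 0` (`θ^(-α) > 1`). Sets with `|W| ≤ N₀` have `HasPathDec R W N₀`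
(one bag `W`; more precisely the constant sequence `bag t = W`, `r = 1`). Claim, by strong induction
on `|W|` (`Pool.Agent.W778.Pw.SEP.glue`): if `N₀ < |W|`, then
`HasPathDec R W (N₀ + M ((θ N₀)^(-α) - |W|^(-α)))`. Take `A, S, B`. For `X = A` or `B`: if
`|X| ≤ N₀`, then `β_X = N₀` and `N₀ + |S| ≤ N₀ + c |W|^(-α) = N₀ + M (θ^(-α) - 1) |W|^(-α)
= N₀ + M ((θ|W|)^(-α) - |W|^(-α)) ≤ N₀ + M ((θ N₀)^(-α) - |W|^(-α))`. If `|X| > N₀`, the induction
hypothesis and `|X|^(-α) ≥ (θ |W|)^(-α)` give `β_X + |S| ≤ N₀ + M ((θ N₀)^(-α) - (θ|W|)^(-α)) +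
M (θ^(-α) - 1) |W|^(-α) = N₀ + M ((θ N₀)^(-α) - |W|^(-α))`. Finally
`M (θ N₀)^(-α) = c N₀^(-α) θ^(-α) / (θ^(-α) - 1) = c N₀^(-α) / (1 - θ^α)`, and drop `- |W|^(-α)`. -/
def SEPNEG.Stm : Prop := ∀ (V : Type) [Fintype V] [DecidableEq V] (R : V → V → Prop)
  (θ c α N₀ : ℝ), 0 < θ → θ < 1 → 0 ≤ c → 0 < α → 0 < N₀ →
  (∀ W : Finset V, N₀ < W.card → ∃ A S B : Finset V,
    (∀ v, v ∈ W ↔ v ∈ A ∨ v ∈ S ∨ v ∈ B) ∧
    (∀ u ∈ A, ∀ v ∈ B, u ≠ v ∧ ¬ R u v ∧ ¬ R v u) ∧
    (A.card : ℝ) ≤ θ * W.card ∧ (B.card : ℝ) ≤ θ * W.card ∧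
    (S.card : ℝ) ≤ c * (W.card : ℝ) ^ (-α)) →
    ∀ W : Finset V, HasPathDec R W (N₀ + c * N₀ ^ (-α) / (1 - θ ^ α))

/-- TLEN: separators of graphs with a layout of total length `L`.

Proof. `N = |W| ≥ 3`, `Q = N / (4 d)`. For each coordinate `i` let `a_i` be the largest integer `h`
with `|{v ∈ W | pos v i < h}| ≤ Q` and `b_i` the smallest `h` with `|{v ∈ W | h ≤ pos v i}| ≤ Q`
(`Pool.Agent.W397.Pw.GRID.exists_low`, `exists_high`). The set of `v ∈ W` with
`a_i ≤ pos v i < b_i` for all `i` has at least `N - 2 d Q = N / 2` elements and at most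
`∏ (b_i - a_i)⁺` (`pos` is injective; see the proof of `GRID`). So some `i` has
`b_i - a_i ≥ (N / 2) ^ (1 / d) > 1`, so the integer `b_i - a_i` is at least `2` and
`m := b_i - a_i - 1 ≥ (b_i - a_i) / 2 ≥ (N / 2) ^ (1 / d) / 2 ≥ N ^ (1 / d) / 4`
(`2 ^ (1 / d) ≤ 2`). For the `m` integers `h` with
`a_i < h < b_i` the cut `{pos v i < h}`, `{h ≤ pos v i}` of `W` has more than `Q` vertices on each
side (`exists_low`, `exists_high`), so less than `N - Q = (1 - 1/(4d)) N` on each side. Let `S_h` be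
the set of `u ∈ W` with `pos u i < h` such that `h ≤ pos v i` for some `v` with `(u, v) ∈ E` or
`(v, u) ∈ E`; `A = {v ∈ W | pos v i < h} \ S_h`, `B = {v ∈ W | h ≤ pos v i}`. There are no edges
between `A` and `B`. `∑_h |S_h| ≤ ∑_h #{p ∈ E | h separates p.1 and p.2} ≤ ∑_{p ∈ E} |pos p.1 i -
pos p.2 i| ≤ ∑_{p ∈ E} len pos p.1 p.2 ≤ L` (`|S_h| ≤ #{...}`: choose a pair for each `u ∈ S_h`; its
lower end is `u`, so the choice is injective). So some `h` has `|S_h| ≤ L / m ≤ 4 L N ^ (-1/d)`. -/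
def TLEN.Stm : Prop := ∀ (V : Type) [Fintype V] [DecidableEq V] (R : V → V → Prop) (d : ℕ) (L : ℝ),
  1 ≤ d → TotalLength R d L → ∀ W : Finset V, 2 < W.card → ∃ A S B : Finset V,
    (∀ v, v ∈ W ↔ v ∈ A ∨ v ∈ S ∨ v ∈ B) ∧
    (∀ u ∈ A, ∀ v ∈ B, u ≠ v ∧ ¬ R u v ∧ ¬ R v u) ∧
    (A.card : ℝ) ≤ (1 - 1 / (4 * d)) * W.card ∧ (B.card : ℝ) ≤ (1 - 1 / (4 * d)) * W.card ∧
    (S.card : ℝ) ≤ 4 * L * (W.card : ℝ) ^ (-(1 / (d : ℝ)))

/-- NUML: the numbers for layouts of total length `L`.

Proof. Write `N₀ = 2 + L^(d/(d+1))`, `P = L^(d/(d+1))`. `L * N₀^(-1/d) ≤ P`: clear for `L = 0`; for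
`L > 0`, `N₀^(-1/d) ≤ P^(-1/d) = L^(-1/(d+1))` and `L * L^(-1/(d+1)) = P`. Bernoulli
(`Real.rpow_one_add_le_one_add_mul_self`): `(1 - 1/(4d))^(1/d) ≤ 1 - 1/(4 d²)`, so
`1 / (1 - ...) ≤ 4 d²`. So the left hand side is at most `2 + P + 4 P * 4 d² ≤ 2 + 17 d² P`. -/
def NUML.Stm : Prop := ∀ (d : ℕ) (L : ℝ), 1 ≤ d → 0 ≤ L →
  (2 + L ^ ((d : ℝ) / (d + 1))) +
    4 * L * (2 + L ^ ((d : ℝ) / (d + 1))) ^ (-(1 / (d : ℝ))) /
      (1 - (1 - 1 / (4 * (d : ℝ))) ^ (1 / (d : ℝ))) ≤
  2 + 17 * (d : ℝ) ^ 2 * L ^ ((d : ℝ) / (d + 1))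

/-- GROUP: pieces of size at most `N / 2` can be grouped into two parts of size at most `2 N / 3`.

Proof. `N = |W|`. If `3 |X| ≤ 2 N`, take `P = fun _ => True`. Otherwise let `k` be the least number
with `3 * #{u ∈ X | ι u ≤ k} ≥ N` (it exists: for `k = max ι` the set is `X`). If
`3 * #{u ∈ X | ι u = k} ≥ N`, take `P = (· = k)`: the fibre has at most `N / 2` elements and the rest
of `X` at most `N - N / 3`. Otherwise take `P = (· ≤ k)`:
`#{ι u ≤ k} = #{ι u < k} + #{ι u = k} < N / 3 + N / 3`, and the rest has at most `N - N / 3`. -/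
def GROUP.Stm : Prop := ∀ (V : Type) [Fintype V] [DecidableEq V] (W X : Finset V) (ι : V → ℕ),
  X ⊆ W → (∀ k, 2 * (X.filter fun u => ι u = k).card ≤ W.card) →
  ∃ P : ℕ → Bool, 3 * (X.filter fun u => P (ι u) = true).card ≤ 2 * W.card ∧
    3 * (X.filter fun u => P (ι u) = false).card ≤ 2 * W.card

/-- TREE: forests have separators of size `1`.

Proof. `W ≠ ∅`, `N = |W|`. Let `T u v` be `ReflTransGen R u v` and `D v = {u ∈ W | T u v}`. The chain
of `u` is deterministic (`R u v` implies `v = π u`) and increasing. Suppose first that some `v` has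
`2 |D v| > N`; take the smallest such `v`. `S = W ∩ {v}`, `X = W \ {v}`. Every `u ∈ X` with `T u v`
has a unique child `c` of `v` (`R c v`, so `c < v`) with `T u c` (last step of the chain from `u` to
`v`; `Relation.ReflTransGen.cases_tail`; unique: of two such children one is above the other in the
chain of `u`, but the next element after the lower one is `v`); put `ι u = c + 1`. For `u` without
`T u v` put `ι u = 0`. The fibre of `c + 1` lies in `D c`, `c < v`, so it has at most `N / 2`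
elements, and the fibre of `0` lies in `W \ D v`, which has less than `N / 2` elements. If
`R u w`, `u, w ∈ X`, then `ι u = ι w`: if `T u v`, `u ≠ v`, then the chain from `u` to `v` starts
with `w = π u`, so `T w v`, and `u ≠ c` (otherwise `w = v`), so also `T w c`; if not `T u v`, then not
`T w v`. If no `v` has `2 |D v| > N`, put `S = ∅`, `X = W`, `ι u` = the last element of the chain of
`u` (the largest `v` with `T u v`); the fibres lie in `D v`; `R u w` implies `ι u = ι w`. In both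
cases apply GROUP and let `A`, `B` be `{u ∈ X | P (ι u)}`, `{u ∈ X | ¬ P (ι u)}`. -/
def TREE.Stm : Prop := GROUP.Stm → ∀ (s : ℕ) (R : Fin s → Fin s → Prop) (π : Fin s → Fin s),
  (∀ u v, R u v → v = π u ∧ u < v) → Separable R (2 / 3) 1 0

/-- USED: remove the vertices which are not used.

Proof. `C'.gate v = C.gate v` if `v` is used and `const false` otherwise. `C'.Wire u v` iff
`C.Wire u v` and `C.Used o v`. `C'.val x v = C.val x v` for all used `v` by strong induction (the
arguments of a used gate are used: `Relation.ReflTransGen.head`); see `val_rule`, `rule_congr` in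
`Pool.Agent.W945.Pw.CUT`. `o` is used (`refl`). -/
def USED.Stm : Prop := ∀ (n s : ℕ) (C : Circuit n s) (o : Fin s), ∃ C' : Circuit n s,
  (∀ x, C'.val x o = C.val x o) ∧ (∀ u v, C'.Wire u v ↔ C.Wire u v ∧ C.Used o v)

/-- COUNT: a circuit is a tree up to a few wires.

Proof. Let `U` be the set of used vertices, `g` the number of `v ∈ U` with two different arguments,
`i` the number of inputs used. Wires go up (`Wire u v → u < v`, by `acyclic`), so `v ≤ o` for
`v ∈ U`. Every `u ∈ U`, `u ≠ o`, has a wire to some vertex `π u ∈ U` (first step of the path to `o`,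
`Relation.ReflTransGen.cases_head`). Let `P` be the set of pairs `(u, v)` with `Wire u v`, `v ∈ U`.
Then `u ∈ U` and `u ≠ o` (`u < v ≤ o`). `|P| = ∑_{v ∈ U} indeg v ≤ ∑_{v ∈ U} (1 + [v has two
different arguments] - [v is an input]) = |U| + g - #(inputs in U)`, and the number of input vertices
in `U` is at least `i` (different inputs are read at different vertices). The pairs `(u, π u)`,
`u ∈ U \ {o}`, are `|U| - 1` elements of `P`; let `P'` be the rest of `P` and `S` the set of the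
first components of `P'`: `|S| + i ≤ |P'| + i = |P| - |U| + 1 + i ≤ g + 1 ≤ size + 1`. -/
def COUNT.Stm : Prop := ∀ (n s : ℕ) (C : Circuit n s) (o : Fin s),
  ∃ (π : Fin s → Fin s) (S : Finset (Fin s)), S.card + C.reads o ≤ C.size + 1 ∧
    ∀ u v, C.Wire u v → C.Used o v → u ∈ S ∨ v = π u

/-- EXC (assembly): circuits with few gates compared with the number of inputs that they read.

Proof. Take `π`, `S` from COUNT (`|S| ≤ t + 1`) and `C'` from USED. Let
`R u v = C'.Wire u v ∧ u ∉ S`; `R u v` implies `v = π u` and `u < v` (`acyclic`). By TREE and SEPLOG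
`R` has path decompositions of `A = univ \ S` with bags of at most
`1 + log |A| / log (3/2) ≤ 1 + 2 j` elements (`log |A| ≤ j log 2`, `log 2 ≤ 2 log (3/2)`; for
`A = ∅` use `log 0 = 0`). It is a path decomposition for `C'.Wire` on `A` as well (on `A` the
relations are equal), and `Pool.Agent.W778.Pw.SEP.glue` with the sets `A`, `S`, `∅` gives one of
`univ` with bags of at most `1 + 2 j + t + 1` elements. -/
def EXC.Stm : Prop := SEPLOG.Stm → GROUP.Stm → TREE.Stm → USED.Stm → COUNT.Stm →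
  ∀ (n s t j : ℕ) (C : Circuit n s) (o : Fin s), C.size ≤ C.reads o + t → s ≤ 2 ^ j →
    ∃ C' : Circuit n s, (∀ x, C'.val x o = C.val x o) ∧
      HasPathDec C'.Wire univ ((t + 2 + 2 * j : ℕ) : ℝ)

/-- JUNTA: functions of at most `2 k` variables are fooled exactly.

Proof. `f x = ∑_S hat f S chi S x` (FOUR), and only sets `S ⊆ P` contribute. For `S ≠ ∅`,
`|S| ≤ 2 k`: `chi S (rounds D T ℓ p.1 (R p.2)) = chi S (D (p.1 0).1) * (a function of the other
components)` by `rounds` for `ℓ = ℓ' + 1` and `sg (xor a b) = sg a * sg b`; the sum over `(p.1 0).1`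
vanishes (`Indep (2 k) D`; split `Fin (ℓ' + 1) → Ω₁ × Ω₂` with `Fin.consEquiv`). For `S = ∅` the
average is `hat f ∅ = avg f`. -/
def JUNTA.Stm : Prop := FOUR.Stm → ∀ (n k ℓ : ℕ) (f : (Fin n → Bool) → ℝ) (P : Finset (Fin n))
    (Ω₁ Ω₂ Ω₃ : Type) [Fintype Ω₁] [Fintype Ω₂] [Fintype Ω₃] [Nonempty Ω₁] [Nonempty Ω₂]
    [Nonempty Ω₃] (D : Ω₁ → Fin n → Bool) (T : Ω₂ → Fin n → Bool) (R : Ω₃ → Fin n → Bool),
  1 ≤ ℓ → Indep (2 * k) D → Dep P f → P.card ≤ 2 * k →
    avg (fun p : (Fin ℓ → Ω₁ × Ω₂) × Ω₃ => f (rounds D T ℓ p.1 (R p.2))) = avg f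

end

end Pool.Agent.W945.Pw
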