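import Pool.Agent.W945.Pw.Stm

/-!
# Circuits with a path decomposition are narrow
-/

namespace Pool.Agent.W945.Pw.CUT

open Finset Pool.Agent.W945.Pw

variable {n s : ℕ}

theorem val_rule (C : Circuit n s) (x : Fin n → Bool) (v : Fin s) :
    C.val x v = (C.gate v).rule x (C.val x) := by
  rw [Circuit.val]
  split <;> rename_i h <;> simp [Gate.rule, h]

theorem rule_congr (C : Circuit n s) (x : Fin n → Bool) (v : Fin s) (a a' : Fin s → Bool)
    (h : ∀ u, C.Wire u v → a u = a' u) : (C.gate v).rule x a = (C.gate v).rule x a' := by
  cases hg : C.gate v with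
  | input i => rfl
  | const c => rfl
  | op g u w =>
    simp only [Gate.rule]
    rw [h u ⟨g, u, w, hg, Or.inl rfl⟩, h w ⟨g, u, w, hg, Or.inr rfl⟩]

theorem rule_congr_x (C : Circuit n s) (x y : Fin n → Bool) (v : Fin s) (a : Fin s → Bool)
    (h : ∀ i, C.gate v = Gate.input i → x i = y i) :
    (C.gate v).rule x a = (C.gate v).rule y a := by
  cases hg : C.gate v with
  | input i => simpa [Gate.rule] using h i hg
  | const c => rfl
  | op g u w => rfl

theorem val_unique (C : Circuit n s) (x : Fin n → Bool) (a : Fin s → Bool)
    (h : ∀ v, a v = (C.gate v).rule x a) (v : Fin s) : a v = C.val x v := by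
  induction v using WellFoundedLT.induction with
  | ind v ih =>
    rw [h v, val_rule]
    apply rule_congr
    rintro u ⟨g, b, c, hg, hu⟩
    have := C.acyclic v g b c hg
    rcases hu with rfl | rfl
    · exact ih _ this.1
    · exact ih _ this.2

theorem main : CUT.Stm := by
  classical
  intro n s q r C o bag h1 h2 h3
  have hs : 0 < s := lt_of_le_of_lt (Nat.zero_le _) o.2
  choose τ hτr hτv hτu using h1
  let key : Fin s → ℕ := fun v => τ v * s + v
  have hkey : ∀ v, key v / s = τ v := by
    intro v
    show (τ v * s + v) / s = τ v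
    rw [Nat.add_comm, Nat.add_mul_div_right _ _ hs, Nat.div_eq_of_lt v.2, Nat.zero_add]
  have hkmod : ∀ v, key v % s = v := by
    intro v
    show (τ v * s + v) % s = v
    rw [Nat.add_comm, Nat.add_mul_mod_self_right, Nat.mod_eq_of_lt v.2]
  have hkinj : Function.Injective key := by
    intro v v' h
    apply Fin.ext
    rw [← hkmod v, ← hkmod v', h]
  have hklt : ∀ v, key v < r * s := by
    intro v
    have : (τ v + 1) * s ≤ r * s := Nat.mul_le_mul_right _ (hτr v)
    have h2 := v.2
    show τ v * s + v < r * s
    calc τ v * s + v < τ v * s + s := by omega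
      _ = (τ v + 1) * s := by ring
      _ ≤ r * s := this
  let ρ : Fin n → ℕ := fun i =>
    if h : ∃ v, C.gate v = Gate.input i then key h.choose else r * s + i
  have hρ : ∀ v i, C.gate v = Gate.input i → ρ i = key v := by
    intro v i hv
    have hex : ∃ v, C.gate v = Gate.input i := ⟨v, hv⟩
    have : ρ i = key hex.choose := by simp only [ρ, dif_pos hex]
    rw [this]
    congr 1
    exact C.once _ _ i hex.choose_spec hv
  have hρ' : ∀ i, (¬ ∃ v, C.gate v = Gate.input i) → ρ i = r * s + i := by
    intro i hi
    simp only [ρ, dif_neg hi]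
  refine ⟨ρ, ?_, ?_⟩
  · intro i i' h
    by_cases hi : ∃ v, C.gate v = Gate.input i
    · obtain ⟨v, hv⟩ := hi
      by_cases hi' : ∃ v, C.gate v = Gate.input i'
      · obtain ⟨v', hv'⟩ := hi'
        rw [hρ v i hv, hρ v' i' hv'] at h
        have := hkinj h
        subst this
        rw [hv] at hv'
        injection hv'
      · rw [hρ v i hv, hρ' i' hi'] at h
        have := hklt v
        omega
    · by_cases hi' : ∃ v, C.gate v = Gate.input i'
      · obtain ⟨v', hv'⟩ := hi'
        rw [hρ v' i' hv', hρ' i hi] at h
        have := hklt v'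
        omega
      · rw [hρ' i hi, hρ' i' hi'] at h
        apply Fin.ext
        omega
  · intro j
    let t := j / s
    let K := bag t
    have hleft : ∀ v, key v < j → τ v ≤ t := by
      intro v hv
      rw [Nat.le_div_iff_mul_le hs]
      have : τ v * s ≤ key v := Nat.le_add_right _ _
      omega
    have hright : ∀ v, j ≤ key v → t ≤ τ v := by
      intro v hv
      rw [← hkey v]
      exact Nat.div_le_div_right hv
    have hK : ∀ u v v', key v < j → j ≤ key v' → (u = v ∨ C.Wire u v) →
        (u = v' ∨ C.Wire u v') → u ∈ K := by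
      intro u v v' hv hv' hu hu'
      have m1 : u ∈ bag (τ v) := by
        rcases hu with rfl | hu
        · exact hτv _
        · exact hτu v u hu
      have m2 : u ∈ bag (τ v') := by
        rcases hu' with rfl | hu'
        · exact hτv _
        · exact hτu v' u hu'
      exact h2 u _ _ _ (hleft v hv) (hright v' hv') m1 m2
    have hcard : Fintype.card (K → Bool) ≤ Fintype.card (Fin (2 ^ q)) := by
      rw [Fintype.card_fun, Fintype.card_bool, Fintype.card_coe, Fintype.card_fin]
      exact Nat.pow_le_pow_right (by norm_num) (h3 t)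
    obtain ⟨emb⟩ := Function.Embedding.nonempty_of_card_le hcard
    let code : (Fin s → Bool) → Fin (2 ^ q) := fun a => emb fun u => a u
    have hcode : ∀ a a', code a = code a' → ∀ u ∈ K, a u = a' u := by
      intro a a' h u hu
      have := emb.injective h
      exact congrFun this ⟨u, hu⟩
    have hcode' : ∀ a a', (∀ u ∈ K, a u = a' u) → code a = code a' := by
      intro a a' h
      show emb _ = emb _
      congr 1
      funext u
      exact h u u.2
    let PA : Fin (2 ^ q) → (Fin n → Bool) → Prop := fun i x => ∃ a, code a = i ∧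
      (∀ v, key v < j → a v = (C.gate v).rule x a) ∧ (key o < j → a o = true)
    let PB : Fin (2 ^ q) → (Fin n → Bool) → Prop := fun i x => ∃ a, code a = i ∧
      (∀ v, j ≤ key v → a v = (C.gate v).rule x a) ∧ (j ≤ key o → a o = true)
    have hAdep : ∀ i x y, (∀ v ∈ univ.filter fun v => ρ v < j, x v = y v) → PA i x → PA i y := by
      rintro i x y hxy ⟨a, ha, hr, ho⟩
      refine ⟨a, ha, fun v hv => ?_, ho⟩
      rw [hr v hv]
      apply rule_congr_x
      intro i' hi'
      apply hxy
      rw [mem_filter]
      exact ⟨mem_univ _, by rw [hρ v i' hi']; exact hv⟩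
    have hBdep : ∀ i x y, (∀ v ∈ univ.filter fun v => j ≤ ρ v, x v = y v) → PB i x → PB i y := by
      rintro i x y hxy ⟨a, ha, hr, ho⟩
      refine ⟨a, ha, fun v hv => ?_, ho⟩
      rw [hr v hv]
      apply rule_congr_x
      intro i' hi'
      apply hxy
      rw [mem_filter]
      exact ⟨mem_univ _, by rw [hρ v i' hi']; exact hv⟩
    have hmain : ∀ i x, (PA i x ∧ PB i x) ↔ (C.val x o = true ∧ i = code (C.val x)) := by
      intro i x
      constructor
      · rintro ⟨⟨a₁, hc1, hr1, ho1⟩, ⟨a₂, hc2, hr2, ho2⟩⟩
        have hag := hcode a₁ a₂ (hc1.trans hc2.symm)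
        let a : Fin s → Bool := fun u =>
          if ∃ v, key v < j ∧ (u = v ∨ C.Wire u v) then a₁ u else a₂ u
        have haL : ∀ v, key v < j → ∀ u, (u = v ∨ C.Wire u v) → a u = a₁ u := by
          intro v hv u hu
          simp only [a]
          rw [if_pos ⟨v, hv, hu⟩]
        have haR : ∀ v, j ≤ key v → ∀ u, (u = v ∨ C.Wire u v) → a u = a₂ u := by
          intro v hv u hu
          simp only [a]
          split_ifs with h
          · obtain ⟨v', hv', hu'⟩ := h
            exact hag u (hK u v' v hv' hv hu' hu)
          · rfl
        have har : ∀ v, a v = (C.gate v).rule x a := by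
          intro v
          by_cases hv : key v < j
          · rw [haL v hv v (Or.inl rfl), hr1 v hv]
            exact rule_congr C x v _ _ fun u hu => (haL v hv u (Or.inr hu)).symm
          · have hv' : j ≤ key v := not_lt.mp hv
            rw [haR v hv' v (Or.inl rfl), hr2 v hv']
            exact rule_congr C x v _ _ fun u hu => (haR v hv' u (Or.inr hu)).symm
        have hav := val_unique C x a har
        constructor
        · rw [← hav o]
          by_cases hv : key o < j
          · rw [haL o hv o (Or.inl rfl)]
            exact ho1 hv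
          · have hv' : j ≤ key o := not_lt.mp hv
            rw [haR o hv' o (Or.inl rfl)]
            exact ho2 hv'
        · rw [← hc1]
          apply hcode'
          intro u hu
          rw [← hav u]
          simp only [a]
          split_ifs
          · rfl
          · exact hag u hu
      · rintro ⟨ho, rfl⟩
        exact ⟨⟨C.val x, rfl, fun v _ => val_rule C x v, fun _ => ho⟩,
          ⟨C.val x, rfl, fun v _ => val_rule C x v, fun _ => ho⟩⟩
    refine ⟨fun i x => if PA i x then 1 else 0, fun i x => if PB i x then 1 else 0, ?_, ?_, ?_, ?_,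
      ?_⟩
    · intro i x
      beta_reduce
      split_ifs <;> simp
    · intro i x
      beta_reduce
      split_ifs <;> simp
    · intro i x y hxy
      beta_reduce
      have : PA i x ↔ PA i y :=
        ⟨hAdep i x y hxy, hAdep i y x fun v hv => (hxy v hv).symm⟩
      by_cases h : PA i x
      · rw [if_pos h, if_pos (this.1 h)]
      · rw [if_neg h, if_neg fun h' => h (this.2 h')]
    · intro i x y hxy
      beta_reduce
      have : PB i x ↔ PB i y :=
        ⟨hBdep i x y hxy, hBdep i y x fun v hv => (hxy v hv).symm⟩
      by_cases h : PB i x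
      · rw [if_pos h, if_pos (this.1 h)]
      · rw [if_neg h, if_neg fun h' => h (this.2 h')]
    · intro x
      beta_reduce
      have e : ∀ i, (if PA i x then (1 : ℝ) else 0) * (if PB i x then (1 : ℝ) else 0) =
          if (C.val x o = true ∧ i = code (C.val x)) then 1 else 0 := by
        intro i
        by_cases hA : PA i x <;> by_cases hB : PB i x
        · rw [if_pos hA, if_pos hB, if_pos ((hmain i x).1 ⟨hA, hB⟩), mul_one]
        · rw [if_neg hB, mul_zero, if_neg fun h => hB ((hmain i x).2 h).2]
        · rw [if_neg hA, zero_mul, if_neg fun h => hA ((hmain i x).2 h).1]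
        · rw [if_neg hA, zero_mul, if_neg fun h => hA ((hmain i x).2 h).1]
      rw [Finset.sum_congr rfl fun i _ => e i]
      by_cases h : C.val x o = true
      · simp [h]
      · simp [h]

end Pool.Agent.W945.Pw.CUT
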