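import Pool.Agent.W945.Pw.Stm2
import Pool.Agent.W945.Pw.CUT

/-!
# Assembly: the generator fools thin circuits
-/

namespace Pool.Agent.W945.Pw

open Finset

noncomputable section

/-- The fraction of the points of a finite type where the test accepts. -/
def prob {Ω : Type} [Fintype Ω] (P : Ω → Bool) : ℝ := avg fun ω => if P ω = true then 1 else 0

/-- The circuit `C` with the output `o` is `b`-thin: (1) its graph has a path decomposition with
bags of at most `b` vertices; or (2) all sets of `N` vertices have balanced separators of `c N ^ γ`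
vertices, and `b` is large compared with `c s ^ γ`; or (3) they have balanced separators of `c`
vertices, and `b` is large compared with `c log s`; or (4) the circuit has a layout in `ℤ ^ d` with
wires of length at most `r`; or (5) it has a layout in `ℤ ^ d` with wires of total length `L`; or
(6) its size is at most the number of inputs that it reads plus `t`; or (7) it reads at most `b`
inputs. -/
def Thin {n s : ℕ} (C : Circuit n s) (o : Fin s) (b : ℕ) : Prop :=
  HasPathDec C.Wire univ b ∨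
  (∃ θ c γ : ℝ, 0 ≤ θ ∧ θ < 1 ∧ 0 ≤ c ∧ 0 < γ ∧ Separable C.Wire θ c γ ∧
    c * (s : ℝ) ^ γ / (1 - θ ^ γ) ≤ b) ∨
  (∃ θ c : ℝ, 0 < θ ∧ θ < 1 ∧ 0 ≤ c ∧ Separable C.Wire θ c 0 ∧
    c * (1 + Real.log s / Real.log (1 / θ)) ≤ b) ∨
  (∃ d r : ℕ, 2 ≤ d ∧ 1 ≤ r ∧ Layout C.Wire d r ∧
    8 * (d : ℝ) ^ 2 / (d - 1) * r * (s : ℝ) ^ (1 - 1 / (d : ℝ)) ≤ b) ∨
  (∃ (d : ℕ) (L : ℝ), 1 ≤ d ∧ 0 ≤ L ∧ TotalLength C.Wire d L ∧
    2 + 17 * (d : ℝ) ^ 2 * L ^ ((d : ℝ) / (d + 1)) ≤ b) ∨
  (∃ t j : ℕ, C.size ≤ C.reads o + t ∧ s ≤ 2 ^ j ∧ t + 2 + 2 * j ≤ b) ∨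
  C.reads o ≤ b

end

namespace Fin'

theorem mono {V : Type} {R : V → V → Prop} {W : Finset V} {β β' : ℝ} (h : β ≤ β')
    (hp : HasPathDec R W β) : HasPathDec R W β' := by
  obtain ⟨r, bag, h1, h2, h3, h4, h5⟩ := hp
  exact ⟨r, bag, h1, h2, h3, h4, fun t => (h5 t).trans h⟩

/-- a thin circuit reads few inputs or may be replaced by one with a path decomposition -/
theorem thin (hSEP : SEP.Stm) (hGRID : GRID.Stm) (hFIELD : FIELD.Stm) (hSEPLOG : SEPLOG.Stm)
    (hSEPNEG : SEPNEG.Stm) (hTLEN : TLEN.Stm) (hNUML : NUML.Stm) (hGROUP : GROUP.Stm)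
    (hTREE : TREE.Stm) (hUSED : USED.Stm) (hCOUNT : COUNT.Stm) (hEXC : EXC.Stm) {n s : ℕ}
    (C : Circuit n s) (o : Fin s) (b : ℕ) (h : Thin C o b) :
    (∃ C' : Circuit n s, (∀ x, C'.val x o = C.val x o) ∧ HasPathDec C'.Wire univ b) ∨
      C.reads o ≤ b := by
  classical
  rcases h with h | ⟨θ, c, γ, h0, h1, hc, hγ, hs, hb⟩ | ⟨θ, c, h0, h1, hc, hs, hb⟩ |
    ⟨d, r, hd, hr, hl, hb⟩ | ⟨d, L, hd, hL, hl, hb⟩ | ⟨t, j, ht, hj, hb⟩ | h
  · exact Or.inl ⟨C, fun _ => rfl, h⟩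
  · refine Or.inl ⟨C, fun _ => rfl, ?_⟩
    have := hSEP (Fin s) C.Wire θ c γ h0 h1 hc hγ hs univ
    rw [Finset.card_univ, Fintype.card_fin] at this
    exact mono hb this
  · refine Or.inl ⟨C, fun _ => rfl, ?_⟩
    have := hSEPLOG (Fin s) C.Wire θ c h0 h1 hc hs univ
    rw [Finset.card_univ, Fintype.card_fin] at this
    exact mono hb this
  · refine Or.inl ⟨C, fun _ => rfl, ?_⟩
    have hg := hGRID (Fin s) C.Wire d r (by omega) hr hl
    have hd2 : (2 : ℝ) ≤ d := by exact_mod_cast hd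
    have hdp : (0 : ℝ) < d := by linarith
    have hinv : 1 / (d : ℝ) ≤ 1 / 2 := one_div_le_one_div_of_le (by norm_num) hd2
    have hinv4 : 1 / (4 * (d : ℝ)) ≤ 1 / 8 :=
      one_div_le_one_div_of_le (by norm_num) (by linarith)
    have hpos4 : 0 < 1 / (4 * (d : ℝ)) := by positivity
    have := hSEP (Fin s) C.Wire _ _ _ (by linarith) (by linarith) (by positivity)
      (by linarith) hg univ
    rw [Finset.card_univ, Fintype.card_fin] at this
    exact mono ((hFIELD.2 d r s hd).trans hb) this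
  · refine Or.inl ⟨C, fun _ => rfl, ?_⟩
    have hd1 : (1 : ℝ) ≤ d := by exact_mod_cast hd
    have hdp : (0 : ℝ) < d := by linarith
    have hinv4 : 1 / (4 * (d : ℝ)) ≤ 1 / 4 :=
      one_div_le_one_div_of_le (by norm_num) (by linarith)
    have hpos4 : 0 < 1 / (4 * (d : ℝ)) := by positivity
    have hP : 0 ≤ L ^ ((d : ℝ) / (d + 1)) := Real.rpow_nonneg hL _
    have := hSEPNEG (Fin s) C.Wire (1 - 1 / (4 * d)) (4 * L) (1 / d)
      (2 + L ^ ((d : ℝ) / (d + 1))) (by linarith) (by linarith) (by positivity)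
      (by positivity) (by positivity) (fun W hW => by
        apply hTLEN (Fin s) C.Wire d L hd hl W
        have h2 : (2 : ℝ) < W.card := by linarith
        exact_mod_cast h2) univ
    exact mono ((hNUML d L hd hL).trans hb) this
  · obtain ⟨C', h1, h2⟩ := hEXC hSEPLOG hGROUP hTREE hUSED hCOUNT n s t j C o ht hj
    exact Or.inl ⟨C', h1, mono (by exact_mod_cast hb) h2⟩
  · exact Or.inr h

theorem fool (hFOUR : FOUR.Stm) (hPROD : PROD.Stm) (hSPLIT : SPLIT.Stm) (hTERM : TERM.Stm)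
    (hLOW : LOW.Stm) (hSTEP : STEP.Stm) (hHYB : HYB.Stm) (hLIVE : LIVE.Stm) (hKWISE : KWISE.Stm)
    (hBAG : BAG.Stm) (hNUM : NUM.Stm) (n m b e : ℕ) (F : Type) [Field F] [Fintype F]
    (lam : F →+ ZMod 2) (pt : Fin n → F) (hF : Fintype.card F = 2 ^ m) (hlam : lam ≠ 0)
    (hpt : Function.Injective pt) (s : ℕ) (C : Circuit n s) (o : Fin s)
    (hC : HasPathDec C.Wire univ b) :
    |prob (fun z : Seed F (6 * b + 4 * m + 2 * e + 4) (m + 1) =>
        C.val (G (6 * b + 4 * m + 2 * e + 4) (m + 1) lam pt z) o) -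
      prob (fun x => C.val x o)| ≤ 1 / 2 ^ e := by
  obtain ⟨r, bag, h1, h2, h3⟩ := hBAG n s b C hC
  obtain ⟨ρ, hρ, hnar⟩ := CUT.main n s (3 * b) r C o bag h1 h2 h3
  have hn : n ≤ 2 ^ m := by
    have := Fintype.card_le_of_injective pt hpt
    rwa [Fintype.card_fin, hF] at this
  have hnum := (hNUM n m b e hn).1
  set k := 6 * b + 4 * m + 2 * e + 4 with hk
  have hk1 : 1 ≤ k := by omega
  let f : (Fin n → Bool) → ℝ := fun x => if C.val x o = true then (1 : ℝ) else 0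
  have hD : Indep (2 * k) (bits (2 * k) lam pt) := hKWISE F n (2 * k) lam pt hlam hpt
  have hT : Indep k (bits k lam pt) := hKWISE F n k lam pt hlam hpt
  have hyb := hHYB n (2 ^ (3 * b)) ρ (n * ((2 ^ (3 * b) : ℕ) : ℝ) / Real.sqrt (2 ^ k))
    (Fin (2 * k) → F) (Fin k → F) (bits (2 * k) lam pt) (bits k lam pt)
    (fun f' hf' => hSTEP hFOUR hPROD hSPLIT hTERM hLOW n (2 ^ (3 * b)) k ρ f' _ _ _ _ hk1 hρ hf'
      hD hT) (m + 1) f hnar
  have live := hLIVE hFOUR n k (m + 1) f (Fin (2 * k) → F) (Fin k → F) (Fin k → F)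
    (bits (2 * k) lam pt) (bits k lam pt) (bits k lam pt)
    (fun x => by simp only [f]; split_ifs <;> norm_num) hT hT
  have key : |avg (fun p : (Fin (m + 1) → (Fin (2 * k) → F) × (Fin k → F)) × (Fin k → F) =>
      f (rounds (bits (2 * k) lam pt) (bits k lam pt) (m + 1) p.1 (bits k lam pt p.2))) - avg f| ≤
      (n : ℝ) ^ k / 2 ^ (k * (m + 1)) +
        ((m + 1 : ℕ) : ℝ) * (n * ((2 ^ (3 * b) : ℕ) : ℝ) / Real.sqrt (2 ^ k)) :=
    (abs_sub_le _ _ _).trans (add_le_add live hyb)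
  refine le_trans ?_ (key.trans (by rw [add_comm]; exact hnum))
  exact le_of_eq rfl

/-- the value depends only on the inputs that are read -/
theorem val_dep {n s : ℕ} (C : Circuit n s) (o : Fin s) (x y : Fin n → Bool)
    (h : ∀ i, (∃ v, C.gate v = Gate.input i ∧ C.Used o v) → x i = y i) (v : Fin s)
    (hv : C.Used o v) : C.val x v = C.val y v := by
  induction v using WellFoundedLT.induction with
  | ind v ih =>
    rw [CUT.val_rule C x, CUT.val_rule C y]
    rw [CUT.rule_congr_x C x y v _ fun i hi => h i ⟨v, hi, hv⟩]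
    apply CUT.rule_congr
    intro u hu
    have hlt : u < v := by
      obtain ⟨g, b, c, hg, hu'⟩ := hu
      rcases hu' with rfl | rfl
      · exact (C.acyclic v g _ _ hg).1
      · exact (C.acyclic v g _ _ hg).2
    exact ih u hlt (Relation.ReflTransGen.head hu hv)

theorem junta (hFOUR : FOUR.Stm) (hKWISE : KWISE.Stm) (hJUNTA : JUNTA.Stm) (n m b e : ℕ)
    (F : Type) [Field F] [Fintype F] (lam : F →+ ZMod 2) (pt : Fin n → F) (hlam : lam ≠ 0)
    (hpt : Function.Injective pt) (s : ℕ) (C : Circuit n s) (o : Fin s) (hC : C.reads o ≤ b) :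
    |prob (fun z : Seed F (6 * b + 4 * m + 2 * e + 4) (m + 1) =>
        C.val (G (6 * b + 4 * m + 2 * e + 4) (m + 1) lam pt z) o) -
      prob (fun x => C.val x o)| ≤ 1 / 2 ^ e := by
  classical
  set k := 6 * b + 4 * m + 2 * e + 4 with hk
  let P : Finset (Fin n) := univ.filter fun i => ∃ v, C.gate v = Gate.input i ∧ C.Used o v
  have hP : P.card ≤ 2 * k := by
    have : P.card = C.reads o := by
      unfold Circuit.reads
      congr 1
    omega
  have hdep : Dep P fun x => if C.val x o = true then (1 : ℝ) else 0 := by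
    intro x y hxy
    have := val_dep C o x y (fun i hi => hxy i (by simp only [P, mem_filter, mem_univ, true_and]; exact hi)) o
      Relation.ReflTransGen.refl
    simp only [this]
  have := hJUNTA hFOUR n k (m + 1) (fun x => if C.val x o = true then (1 : ℝ) else 0) P
    (Fin (2 * k) → F) (Fin k → F) (Fin k → F) (bits (2 * k) lam pt) (bits k lam pt)
    (bits k lam pt) (by omega) (hKWISE F n (2 * k) lam pt hlam hpt) hdep hP
  have e1 : prob (fun z : Seed F k (m + 1) => C.val (G k (m + 1) lam pt z) o) =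
      prob (fun x => C.val x o) := this
  rw [e1, sub_self, abs_zero]
  positivity

theorem main (hFOUR : FOUR.Stm) (hPROD : PROD.Stm) (hSPLIT : SPLIT.Stm) (hTERM : TERM.Stm)
    (hLOW : LOW.Stm) (hSTEP : STEP.Stm) (hHYB : HYB.Stm) (hLIVE : LIVE.Stm) (hKWISE : KWISE.Stm)
    (hBAG : BAG.Stm) (hSEP : SEP.Stm) (hGRID : GRID.Stm) (hNUM : NUM.Stm) (hFIELD : FIELD.Stm)
    (hSEPLOG : SEPLOG.Stm) (hSEPNEG : SEPNEG.Stm) (hTLEN : TLEN.Stm) (hNUML : NUML.Stm)
    (hGROUP : GROUP.Stm) (hTREE : TREE.Stm) (hUSED : USED.Stm) (hCOUNT : COUNT.Stm)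
    (hEXC : EXC.Stm) (hJUNTA : JUNTA.Stm) :
    (∀ (n m b e : ℕ) (F : Type) [Field F] [Fintype F] (lam : F →+ ZMod 2) (pt : Fin n → F),
      Fintype.card F = 2 ^ m → lam ≠ 0 → Function.Injective pt →
      Fintype.card (Seed F (6 * b + 4 * m + 2 * e + 4) (m + 1)) =
        2 ^ (m * (3 * m + 4) * (6 * b + 4 * m + 2 * e + 4)) ∧
      ∀ (s : ℕ) (C : Circuit n s) (o : Fin s), Thin C o b →
        |prob (fun z : Seed F (6 * b + 4 * m + 2 * e + 4) (m + 1) =>
            C.val (G (6 * b + 4 * m + 2 * e + 4) (m + 1) lam pt z) o) -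
          prob (fun x => C.val x o)| ≤ 1 / 2 ^ e) ∧
    ∀ (n m : ℕ), 1 ≤ m → n ≤ 2 ^ m → ∃ (F : Type) (_ : Field F) (_ : Fintype F)
      (lam : F →+ ZMod 2) (pt : Fin n → F),
      Fintype.card F = 2 ^ m ∧ lam ≠ 0 ∧ Function.Injective pt := by
  refine ⟨?_, hFIELD.1⟩
  intro n m b e F _ _ lam pt hF hlam hpt
  have hn : n ≤ 2 ^ m := by
    have := Fintype.card_le_of_injective pt hpt
    rwa [Fintype.card_fin, hF] at this
  refine ⟨(hNUM n m b e hn).2 F hF, ?_⟩
  intro s C o hC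
  rcases thin hSEP hGRID hFIELD hSEPLOG hSEPNEG hTLEN hNUML hGROUP hTREE hUSED hCOUNT hEXC C o b hC
    with ⟨C', h1, h2⟩ | h
  · have := fool hFOUR hPROD hSPLIT hTERM hLOW hSTEP hHYB hLIVE hKWISE hBAG hNUM n m b e F lam pt
      hF hlam hpt s C' o h2
    simp only [h1] at this
    exact this
  · exact junta hFOUR hKWISE hJUNTA n m b e F lam pt hlam hpt s C o h

end Fin'

end Pool.Agent.W945.Pw
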